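import Mathlib

set_option autoImplicit false

open Finset

namespace Pool.Agent.Work.MP_c292ad_nt

/-- The integer sequence `R_n`, written with Catalan numbers. -/
def R (n : ℕ) : ℤ :=
  -1 + 2 * ∑ k ∈ range n, (catalan k : ℤ) * (Nat.choose (n + k + 1) (2 * k + 2) : ℤ)

/-- Central Delannoy numbers. -/
def P (n : ℕ) : ℤ :=
  ∑ k ∈ range (n + 1), (Nat.centralBinom k : ℤ) * (Nat.choose (n + k) (2 * k) : ℤ)

/-- Partial sums of `R`. -/
def Xi (n : ℕ) : ℤ := ∑ j ∈ range n, R j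

lemma R_eq (n N : ℕ) (h : n ≤ N) :
    R n = -1 + 2 * ∑ k ∈ range N, (catalan k : ℤ) * (Nat.choose (n + k + 1) (2 * k + 2) : ℤ) := by
  unfold R
  congr 2
  apply sum_subset
  · intro x hx; simp only [mem_range] at *; omega
  · intro x _ hx2
    simp only [mem_range] at *
    rw [Nat.choose_eq_zero_of_lt (by omega)]
    simp

lemma Xi_eq (n N : ℕ) (h : n ≤ N) :
    Xi n = -(n : ℤ) + 2 * ∑ k ∈ range N, (catalan k : ℤ) * (Nat.choose (n + k + 1) (2 * k + 3) : ℤ) := by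
  induction n with
  | zero =>
    simp only [Xi, range_zero, sum_empty, Nat.cast_zero, neg_zero, zero_add]
    symm
    rw [mul_eq_zero]; right
    apply sum_eq_zero
    intro x _
    rw [Nat.choose_eq_zero_of_lt (by omega)]
    simp
  | succ n ih =>
    have h1 : Xi (n + 1) = Xi n + R n := by simp [Xi, sum_range_succ]
    rw [h1, ih (by omega), R_eq n N (by omega)]
    have h2 : ∑ k ∈ range N, (catalan k : ℤ) * (Nat.choose (n + 1 + k + 1) (2 * k + 3) : ℤ)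
        = ∑ k ∈ range N, (catalan k : ℤ) * (Nat.choose (n + k + 1) (2 * k + 2) : ℤ)
        + ∑ k ∈ range N, (catalan k : ℤ) * (Nat.choose (n + k + 1) (2 * k + 3) : ℤ) := by
      rw [← sum_add_distrib]
      apply sum_congr rfl
      intro k _
      rw [show n + 1 + k + 1 = (n + k + 1) + 1 by ring, show 2 * k + 3 = (2 * k + 2) + 1 by ring,
        Nat.choose_succ_succ]
      push_cast
      ring
    rw [h2]
    push_cast
    ring

lemma choose_step (m j : ℕ) :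
    ((Nat.choose m (j + 1) : ℕ) : ℚ) * (j + 1) = (Nat.choose m j : ℚ) * ((m : ℚ) - j) := by
  rcases le_or_gt j m with h | h
  · have := Nat.choose_succ_right_eq m j
    have h2 : ((Nat.choose m (j + 1) * (j + 1) : ℕ) : ℚ) = ((Nat.choose m j * (m - j) : ℕ) : ℚ) := by
      rw [this]
    push_cast [Nat.cast_sub h] at h2
    exact h2
  · rw [Nat.choose_eq_zero_of_lt h, Nat.choose_eq_zero_of_lt (by omega : m < j + 1)]
    simp

lemma choose_up (m j : ℕ) :
    ((Nat.choose (m + 1) (j + 1) : ℕ) : ℚ) * (j + 1) = (Nat.choose m j : ℚ) * ((m : ℚ) + 1) := by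
  have := Nat.add_one_mul_choose_eq m j
  have h2 : (((m + 1) * Nat.choose m j : ℕ) : ℚ) = ((Nat.choose (m + 1) (j + 1) * (j + 1) : ℕ) : ℚ) := by
    rw [this]
  push_cast at h2
  linarith

lemma cb_cat (k : ℕ) : ((catalan k : ℕ) : ℚ) * (k + 1) = (Nat.centralBinom k : ℚ) := by
  have := succ_mul_catalan_eq_centralBinom k
  have h2 : (((k + 1) * catalan k : ℕ) : ℚ) = ((Nat.centralBinom k : ℕ) : ℚ) := by rw [this]
  push_cast at h2
  linarith

lemma cb_succ (k : ℕ) : ((Nat.centralBinom (k + 1) : ℕ) : ℚ) = 2 * (2 * k + 1) * (catalan k : ℚ) := by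
  have := Nat.succ_mul_centralBinom_succ k
  have h2 : (((k + 1) * Nat.centralBinom (k + 1) : ℕ) : ℚ) = ((2 * (2 * k + 1) * Nat.centralBinom k : ℕ) : ℚ) := by
    rw [this]
  push_cast at h2
  rw [← cb_cat k] at h2
  have hk : ((k : ℚ) + 1) ≠ 0 := by positivity
  apply mul_left_cancel₀ hk
  linarith

/-- The telescoping identity behind the recurrence. -/
lemma tele (n k : ℕ) :
    2 * (catalan k : ℚ) * (((n : ℚ) + 2) * (Nat.choose (n + k + 3) (2 * k + 2) : ℚ)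
      - (6 * n + 5) * (Nat.choose (n + k + 2) (2 * k + 2) : ℚ)
      + (n + 1) * (Nat.choose (n + k + 1) (2 * k + 2) : ℚ)
      + 8 * (Nat.choose (n + k + 2) (2 * k + 3) : ℚ))
    = 2 * (2 * n + 3) * ((Nat.centralBinom k : ℚ) * (Nat.choose (n + 1 + k) (2 * k) : ℚ) / (2 * k + 1)
      - (Nat.centralBinom (k + 1) : ℚ) * (Nat.choose (n + 1 + (k + 1)) (2 * (k + 1)) : ℚ) / (2 * k + 3)) := by
  set b : ℚ := (Nat.choose (n + 1 + k) (2 * k) : ℚ) with hb
  set c : ℚ := (catalan k : ℚ) with hc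
  have h1 := choose_step (n + 1 + k) (2 * k)
  have h2 := choose_step (n + 1 + k) (2 * k + 1)
  have h3 := choose_up (n + 1 + k) (2 * k)
  have h4 := choose_up (n + 1 + k) (2 * k + 1)
  have h5 := choose_up (n + 1 + k + 1) (2 * k + 1)
  have h6 := choose_step (n + 1 + k + 1) (2 * k + 2)
  rw [show n + k + 3 = n + 1 + k + 1 + 1 by ring, show n + k + 2 = n + 1 + k + 1 by ring,
    show n + k + 1 = n + 1 + k by ring, show 2 * k + 2 = 2 * k + 1 + 1 by ring,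
    show 2 * k + 3 = 2 * k + 2 + 1 by ring, show n + 1 + (k + 1) = n + 1 + k + 1 by ring,
    show 2 * (k + 1) = 2 * k + 1 + 1 by ring, cb_succ k, ← cb_cat k]
  rw [show 2 * k + 2 = 2 * k + 1 + 1 by ring] at h6
  push_cast at h1 h2 h3 h4 h5 h6 ⊢
  rw [← hb] at h1 h3
  have p1 : (2 * (k : ℚ) + 1) ≠ 0 := by positivity
  have p2 : (2 * (k : ℚ) + 2) ≠ 0 := by positivity
  have p3 : (2 * (k : ℚ) + 3) ≠ 0 := by positivity
  have e1 : ((Nat.choose (n + 1 + k) (2 * k + 1) : ℕ) : ℚ) = b * ((n : ℚ) + 1 - k) / (2 * k + 1) := by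
    rw [eq_div_iff p1, h1]; ring
  have e2 : ((Nat.choose (n + 1 + k) (2 * k + 1 + 1) : ℕ) : ℚ)
      = b * ((n : ℚ) + 1 - k) * ((n : ℚ) - k) / ((2 * k + 1) * (2 * k + 2)) := by
    rw [e1] at h2
    rw [eq_div_iff (mul_ne_zero p1 p2)]
    have : ((Nat.choose (n + 1 + k) (2 * k + 1 + 1) : ℕ) : ℚ) * (2 * k + 2)
      = b * ((n : ℚ) + 1 - k) / (2 * k + 1) * ((n : ℚ) - k) := by
      rw [show (2 * (k : ℚ) + 2) = 2 * k + 1 + 1 by ring, h2]; ring
    calc ((Nat.choose (n + 1 + k) (2 * k + 1 + 1) : ℕ) : ℚ) * ((2 * k + 1) * (2 * k + 2))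
        = (((Nat.choose (n + 1 + k) (2 * k + 1 + 1) : ℕ) : ℚ) * (2 * k + 2)) * (2 * k + 1) := by ring
      _ = _ := by rw [this]; field_simp
  have e3 : ((Nat.choose (n + 1 + k + 1) (2 * k + 1) : ℕ) : ℚ) = b * ((n : ℚ) + k + 2) / (2 * k + 1) := by
    rw [eq_div_iff p1, h3]; ring
  have e4 : ((Nat.choose (n + 1 + k + 1) (2 * k + 1 + 1) : ℕ) : ℚ)
      = b * ((n : ℚ) + 1 - k) * ((n : ℚ) + k + 2) / ((2 * k + 1) * (2 * k + 2)) := by
    rw [e1] at h4
    rw [eq_div_iff (mul_ne_zero p1 p2)]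
    have : ((Nat.choose (n + 1 + k + 1) (2 * k + 1 + 1) : ℕ) : ℚ) * (2 * k + 2)
      = b * ((n : ℚ) + 1 - k) / (2 * k + 1) * ((n : ℚ) + k + 2) := by
      rw [show (2 * (k : ℚ) + 2) = 2 * k + 1 + 1 by ring, h4]; ring
    calc ((Nat.choose (n + 1 + k + 1) (2 * k + 1 + 1) : ℕ) : ℚ) * ((2 * k + 1) * (2 * k + 2))
        = (((Nat.choose (n + 1 + k + 1) (2 * k + 1 + 1) : ℕ) : ℚ) * (2 * k + 2)) * (2 * k + 1) := by ring
      _ = _ := by rw [this]; field_simp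
  have e5 : ((Nat.choose (n + 1 + k + 1 + 1) (2 * k + 1 + 1) : ℕ) : ℚ)
      = b * ((n : ℚ) + k + 2) * ((n : ℚ) + k + 3) / ((2 * k + 1) * (2 * k + 2)) := by
    rw [e3] at h5
    rw [eq_div_iff (mul_ne_zero p1 p2)]
    have : ((Nat.choose (n + 1 + k + 1 + 1) (2 * k + 1 + 1) : ℕ) : ℚ) * (2 * k + 2)
      = b * ((n : ℚ) + k + 2) / (2 * k + 1) * ((n : ℚ) + k + 3) := by
      rw [show (2 * (k : ℚ) + 2) = 2 * k + 1 + 1 by ring, h5]; ring
    calc ((Nat.choose (n + 1 + k + 1 + 1) (2 * k + 1 + 1) : ℕ) : ℚ) * ((2 * k + 1) * (2 * k + 2))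
        = (((Nat.choose (n + 1 + k + 1 + 1) (2 * k + 1 + 1) : ℕ) : ℚ) * (2 * k + 2)) * (2 * k + 1) := by ring
      _ = _ := by rw [this]; field_simp
  have e6 : ((Nat.choose (n + 1 + k + 1) (2 * k + 1 + 1 + 1) : ℕ) : ℚ)
      = b * ((n : ℚ) + 1 - k) * ((n : ℚ) + k + 2) * ((n : ℚ) - k) / ((2 * k + 1) * (2 * k + 2) * (2 * k + 3)) := by
    rw [e4] at h6
    rw [eq_div_iff (mul_ne_zero (mul_ne_zero p1 p2) p3)]
    have : ((Nat.choose (n + 1 + k + 1) (2 * k + 1 + 1 + 1) : ℕ) : ℚ) * (2 * k + 3)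
      = b * ((n : ℚ) + 1 - k) * ((n : ℚ) + k + 2) / ((2 * k + 1) * (2 * k + 2)) * ((n : ℚ) - k) := by
      rw [show (2 * (k : ℚ) + 3) = 2 * k + 1 + 1 + 1 by ring, h6]; ring
    calc ((Nat.choose (n + 1 + k + 1) (2 * k + 1 + 1 + 1) : ℕ) : ℚ) * ((2 * k + 1) * (2 * k + 2) * (2 * k + 3))
        = (((Nat.choose (n + 1 + k + 1) (2 * k + 1 + 1 + 1) : ℕ) : ℚ) * (2 * k + 3)) * ((2 * k + 1) * (2 * k + 2)) := by ring
      _ = _ := by rw [this]; field_simp
  rw [e2, e4, e5, e6]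
  field_simp
  ring

/-- Four-term recurrence, involving partial sums. -/
lemma R_rec (n : ℕ) :
    ((n : ℤ) + 2) * R (n + 2) = (6 * n + 5) * R (n + 1) - (n + 1) * R n - 8 * Xi (n + 1) := by
  have key : ((n : ℚ) + 2) * (R (n + 2) : ℚ) = (6 * n + 5) * (R (n + 1) : ℚ) - (n + 1) * (R n : ℚ)
      - 8 * (Xi (n + 1) : ℚ) := by
    rw [R_eq (n + 2) (n + 2) le_rfl, R_eq (n + 1) (n + 2) (by omega), R_eq n (n + 2) (by omega),
      Xi_eq (n + 1) (n + 2) (by omega)]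
    have h := sum_range_sub' (fun k => (Nat.centralBinom k : ℚ) * (Nat.choose (n + 1 + k) (2 * k) : ℚ)
      / (2 * k + 1)) (n + 2)
    have h2 : ∑ k ∈ range (n + 2), (2 * (catalan k : ℚ) * (((n : ℚ) + 2) * (Nat.choose (n + k + 3) (2 * k + 2) : ℚ)
      - (6 * n + 5) * (Nat.choose (n + k + 2) (2 * k + 2) : ℚ)
      + (n + 1) * (Nat.choose (n + k + 1) (2 * k + 2) : ℚ)
      + 8 * (Nat.choose (n + k + 2) (2 * k + 3) : ℚ))) = 2 * (2 * n + 3) := by
      have : ∀ k ∈ range (n + 2), (2 * (catalan k : ℚ) * (((n : ℚ) + 2) * (Nat.choose (n + k + 3) (2 * k + 2) : ℚ)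
      - (6 * n + 5) * (Nat.choose (n + k + 2) (2 * k + 2) : ℚ)
      + (n + 1) * (Nat.choose (n + k + 1) (2 * k + 2) : ℚ)
      + 8 * (Nat.choose (n + k + 2) (2 * k + 3) : ℚ)))
        = 2 * (2 * n + 3) * ((Nat.centralBinom k : ℚ) * (Nat.choose (n + 1 + k) (2 * k) : ℚ) / (2 * k + 1)
      - (Nat.centralBinom (k + 1) : ℚ) * (Nat.choose (n + 1 + (k + 1)) (2 * (k + 1)) : ℚ)
        / (2 * ((k + 1 : ℕ) : ℚ) + 1)) := by
        intro k _
        rw [tele n k]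
        push_cast
        ring
      rw [sum_congr rfl this, ← mul_sum, h]
      rw [Nat.choose_eq_zero_of_lt (by omega : n + 1 + (n + 2) < 2 * (n + 2))]
      simp
    have h3 : ∑ k ∈ range (n + 2), (2 * (catalan k : ℚ) * (((n : ℚ) + 2) * (Nat.choose (n + k + 3) (2 * k + 2) : ℚ)
      - (6 * n + 5) * (Nat.choose (n + k + 2) (2 * k + 2) : ℚ)
      + (n + 1) * (Nat.choose (n + k + 1) (2 * k + 2) : ℚ)
      + 8 * (Nat.choose (n + k + 2) (2 * k + 3) : ℚ)))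
      = 2 * (n + 2) * ∑ k ∈ range (n + 2), (catalan k : ℚ) * (Nat.choose (n + 2 + k + 1) (2 * k + 2) : ℚ)
      - 2 * (6 * n + 5) * ∑ k ∈ range (n + 2), (catalan k : ℚ) * (Nat.choose (n + 1 + k + 1) (2 * k + 2) : ℚ)
      + 2 * (n + 1) * ∑ k ∈ range (n + 2), (catalan k : ℚ) * (Nat.choose (n + k + 1) (2 * k + 2) : ℚ)
      + 16 * ∑ k ∈ range (n + 2), (catalan k : ℚ) * (Nat.choose (n + 1 + k + 1) (2 * k + 3) : ℚ) := by
      simp only [mul_sum, ← sum_add_distrib, ← sum_sub_distrib]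
      apply sum_congr rfl
      intro k _
      rw [show n + 2 + k + 1 = n + k + 3 by ring, show n + 1 + k + 1 = n + k + 2 by ring]
      ring
    push_cast
    rw [h3] at h2
    linarith
  exact_mod_cast key

lemma PR_rel (n : ℕ) :
    (2 * (n : ℤ) + 1) * R (n + 1) - (2 * n + 3) * R n = P (n + 1) + P n := by
  have key : (2 * (n : ℚ) + 1) * (R (n + 1) : ℚ) - (2 * n + 3) * (R n : ℚ) = (P (n + 1) : ℚ) + (P n : ℚ) := by
    rw [R_eq (n + 1) (n + 1) le_rfl, R_eq n (n + 1) (by omega)]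
    unfold P
    rw [sum_range_succ' _ (n + 1), show ∑ k ∈ range (n + 1), (Nat.centralBinom k : ℤ) * (Nat.choose (n + k) (2 * k) : ℤ)
      = ∑ k ∈ range (n + 1 + 1), (Nat.centralBinom k : ℤ) * (Nat.choose (n + k) (2 * k) : ℤ) by
        rw [sum_range_succ _ (n + 1), Nat.choose_eq_zero_of_lt (by omega : n + (n + 1) < 2 * (n + 1))]
        simp, sum_range_succ' _ (n + 1)]
    push_cast
    have : ∀ k ∈ range (n + 1), (2 * (catalan k : ℚ)) * ((2 * n + 1) * (Nat.choose (n + 1 + k + 1) (2 * k + 2) : ℚ)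
        - (2 * n + 3) * (Nat.choose (n + k + 1) (2 * k + 2) : ℚ))
        = (Nat.centralBinom (k + 1) : ℚ) * (Nat.choose (n + 1 + (k + 1)) (2 * (k + 1)) : ℚ)
        + (Nat.centralBinom (k + 1) : ℚ) * (Nat.choose (n + (k + 1)) (2 * (k + 1)) : ℚ) := by
      intro k _
      rw [cb_succ k, show n + 1 + k + 1 = n + k + 1 + 1 by ring, show n + 1 + (k + 1) = n + k + 1 + 1 by ring,
        show n + (k + 1) = n + k + 1 by ring, show 2 * (k + 1) = 2 * k + 1 + 1 by ring,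
        show 2 * k + 2 = 2 * k + 1 + 1 by ring]
      have h1 := choose_step (n + k + 1) (2 * k + 1)
      have h2 := choose_up (n + k + 1) (2 * k + 1)
      push_cast at h1 h2
      have p2 : (2 * (k : ℚ) + 1 + 1) ≠ 0 := by positivity
      have e1 : ((Nat.choose (n + k + 1) (2 * k + 1 + 1) : ℕ) : ℚ)
        = (Nat.choose (n + k + 1) (2 * k + 1) : ℚ) * ((n : ℚ) - k) / (2 * k + 1 + 1) := by
        rw [eq_div_iff p2, h1]; ring
      have e2 : ((Nat.choose (n + k + 1 + 1) (2 * k + 1 + 1) : ℕ) : ℚ)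
        = (Nat.choose (n + k + 1) (2 * k + 1) : ℚ) * ((n : ℚ) + k + 2) / (2 * k + 1 + 1) := by
        rw [eq_div_iff p2, h2]; ring
      rw [e1, e2]
      field_simp
      ring
    have h3 := sum_congr (rfl : range (n + 1) = range (n + 1)) this
    rw [sum_add_distrib] at h3
    have h4 : ∑ k ∈ range (n + 1), (2 * (catalan k : ℚ)) * ((2 * n + 1) * (Nat.choose (n + 1 + k + 1) (2 * k + 2) : ℚ)
        - (2 * n + 3) * (Nat.choose (n + k + 1) (2 * k + 2) : ℚ))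
        = 2 * (2 * n + 1) * ∑ k ∈ range (n + 1), (catalan k : ℚ) * (Nat.choose (n + 1 + k + 1) (2 * k + 2) : ℚ)
        - 2 * (2 * n + 3) * ∑ k ∈ range (n + 1), (catalan k : ℚ) * (Nat.choose (n + k + 1) (2 * k + 2) : ℚ) := by
      simp only [mul_sum, ← sum_sub_distrib]
      apply sum_congr rfl
      intro k _
      ring
    rw [h4] at h3
    simp only [Nat.centralBinom_zero, Nat.choose_zero_right, Nat.cast_one, mul_one]
    linarith
  exact_mod_cast key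

end Pool.Agent.Work.MP_c292ad_nt
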