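import Mathlib
import Pool.Agent.Work.MP_c292ad_nt.Core

set_option autoImplicit false

open Finset

namespace Pool.Agent.Work.MP_c292ad_nt

lemma delannoy_nat (n : ℕ) :
    ∑ k ∈ range (n + 1), Nat.centralBinom k * Nat.choose (n + k) (2 * k)
      = ∑ j ∈ range (n + 1), (Nat.choose n j) ^ 2 * 2 ^ (n - j) := by
  have h1 : ∀ k ∈ range (n + 1), Nat.centralBinom k * Nat.choose (n + k) (2 * k)
      = ∑ i ∈ range (n + 1), Nat.choose n i * (Nat.choose n k * Nat.choose k i) := by
    intro k hk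
    have hk' : k ≤ n := by simp only [mem_range] at hk; omega
    have e1 : Nat.choose (n + k) (2 * k) * Nat.choose (2 * k) k = Nat.choose (n + k) k * Nat.choose n k := by
      have := Nat.choose_mul (n := n + k) (k := 2 * k) (s := k) (by omega)
      rw [this]
      congr 2 <;> omega
    have e2 : Nat.choose (n + k) k = ∑ i ∈ range (k + 1), Nat.choose n i * Nat.choose k i := by
      rw [Nat.add_choose_eq, Finset.Nat.sum_antidiagonal_eq_sum_range_succ_mk]
      apply sum_congr rfl
      intro i hi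
      have : i ≤ k := by simp only [mem_range] at hi; omega
      simp only
      rw [Nat.choose_symm this]
    have e3 : ∑ i ∈ range (k + 1), Nat.choose n i * Nat.choose k i
        = ∑ i ∈ range (n + 1), Nat.choose n i * Nat.choose k i := by
      apply sum_subset
      · intro x hx; simp only [mem_range] at *; omega
      · intro x _ hx
        simp only [mem_range] at *
        rw [Nat.choose_eq_zero_of_lt (by omega : k < x)]
        simp
    rw [Nat.centralBinom_eq_two_mul_choose, mul_comm, e1, e2, e3, sum_mul]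
    apply sum_congr rfl
    intro i _
    ring
  rw [sum_congr rfl h1, sum_comm]
  apply sum_congr rfl
  intro i hi
  have hi' : i ≤ n := by simp only [mem_range] at hi; omega
  rw [← mul_sum]
  have h2 : ∑ k ∈ range (n + 1), Nat.choose n k * Nat.choose k i = Nat.choose n i * 2 ^ (n - i) := by
    rw [← Nat.sum_range_choose (n - i), mul_sum]
    rw [show n + 1 = i + (n - i + 1) by omega, sum_range_add]
    have hz : ∑ x ∈ range i, Nat.choose (i + (n - i + 1) - 1) x * Nat.choose x i = 0 := by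
      apply sum_eq_zero
      intro x hx
      simp only [mem_range] at hx
      rw [Nat.choose_eq_zero_of_lt hx]
      simp
    have hz' : ∑ x ∈ range i, Nat.choose n x * Nat.choose x i = 0 := by
      apply sum_eq_zero
      intro x hx
      simp only [mem_range] at hx
      rw [Nat.choose_eq_zero_of_lt hx]
      simp
    rw [hz', zero_add]
    apply sum_congr rfl
    intro x hx
    have hx' : x ≤ n - i := by simp only [mem_range] at hx; omega
    have := Nat.choose_mul (n := n) (k := i + x) (s := i) (by omega)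
    rw [this]
    congr 2
    omega
  rw [h2]
  ring

lemma P_mod8 (n : ℕ) : ((P n : ℤ) : ZMod 8) = 2 * (n : ZMod 8) + 1 := by
  have h0 : P n = ((∑ k ∈ range (n + 1), Nat.centralBinom k * Nat.choose (n + k) (2 * k) : ℕ) : ℤ) := by
    unfold P; push_cast; rfl
  rw [h0, delannoy_nat]
  have h1 : ∑ j ∈ range (n + 1), (Nat.choose n j) ^ 2 * 2 ^ (n - j)
      = ∑ j ∈ range (n + 1), (Nat.choose n j) ^ 2 * 2 ^ j := by
    rw [← sum_range_reflect]
    apply sum_congr rfl
    intro j hj
    have hj' : j ≤ n := by simp only [mem_range] at hj; omega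
    rw [show n + 1 - 1 - j = n - j by omega, Nat.choose_symm hj', show n - (n - j) = j by omega]
  have h2 : ∑ j ∈ range (n + 1), (Nat.choose n j) ^ 2 * 2 ^ j
      = ∑ j ∈ range (n + 3), (Nat.choose n j) ^ 2 * 2 ^ j := by
    rw [sum_range_succ _ (n + 2), sum_range_succ _ (n + 1), Nat.choose_eq_zero_of_lt (by omega : n < n + 2),
      Nat.choose_eq_zero_of_lt (by omega : n < n + 1)]
    simp
  rw [h1, h2, sum_range_succ', sum_range_succ', sum_range_succ']
  have h3 : ((∑ k ∈ range n, (Nat.choose n (k + 1 + 1 + 1)) ^ 2 * 2 ^ (k + 1 + 1 + 1) : ℕ) : ZMod 8) = 0 := by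
    push_cast
    apply sum_eq_zero
    intro k _
    have : (2 : ZMod 8) ^ (k + 1 + 1 + 1) = 0 := by
      rw [show k + 1 + 1 + 1 = k + 3 by ring, pow_add]
      have : (2 : ZMod 8) ^ 3 = 0 := by decide
      rw [this, mul_zero]
    rw [this, mul_zero]
  have h4 : (4 : ZMod 8) * ((Nat.choose n 2 : ℕ) : ZMod 8) ^ 2 = ((n : ZMod 8) * ((n : ZMod 8) - 1)) ^ 2 := by
    have : (2 : ℤ) * ((Nat.choose n 2 : ℕ) : ℤ) = (n : ℤ) * ((n : ℤ) - 1) := by
      have h := choose_step n 1
      simp only [Nat.choose_one_right] at h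
      have h' : (2 : ℚ) * ((Nat.choose n 2 : ℕ) : ℚ) = (n : ℚ) * ((n : ℚ) - 1) := by
        push_cast at h; linarith
      exact_mod_cast h'
    have h' : ((2 : ℤ) * ((Nat.choose n 2 : ℕ) : ℤ) : ZMod 8) = (((n : ℤ) * ((n : ℤ) - 1) : ℤ) : ZMod 8) := by
      rw [← this]; push_cast; ring
    push_cast at h'
    rw [← h']; ring
  simp only [zero_add, Nat.choose_zero_right, Nat.choose_one_right, pow_zero, one_pow, mul_one, pow_one]
  push_cast at h3 ⊢
  rw [h3]
  have h5 : ∀ x : ZMod 8, x ^ 2 * 2 + 1 + (x * (x - 1)) ^ 2 = 2 * x + 1 := by decide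
  rw [← h5 (n : ZMod 8), ← h4]
  ring

lemma R_mod8 (n : ℕ) : ((R n : ℤ) : ZMod 8) = -(-1) ^ n := by
  induction n with
  | zero => simp [R]
  | succ n ih =>
    have h := PR_rel n
    have h' : (((2 * (n : ℤ) + 1) * R (n + 1) - (2 * n + 3) * R n : ℤ) : ZMod 8)
      = ((P (n + 1) + P n : ℤ) : ZMod 8) := by rw [h]
    push_cast at h'
    rw [P_mod8, P_mod8, ih] at h'
    push_cast at h'
    have hx : ∀ x : ZMod 8, (2 * x + 1) * (2 * x + 1) = 1 := by decide
    have h2 : ((R (n + 1) : ℤ) : ZMod 8) = (2 * (n : ZMod 8) + 1) * ((2 * (n : ZMod 8) + 1) * ((R (n + 1) : ℤ) : ZMod 8)) := by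
      rw [← mul_assoc, hx, one_mul]
    have h3 : (2 * (n : ZMod 8) + 1) * ((R (n + 1) : ℤ) : ZMod 8)
      = (2 * (n : ZMod 8) + 3) * (-(-1) ^ n) + (2 * ((n : ZMod 8) + 1) + 1 + (2 * (n : ZMod 8) + 1)) := by
      rw [← h']; ring
    rw [h2, h3]
    rcases Nat.even_or_odd n with he | ho
    · rw [he.neg_one_pow, pow_succ, he.neg_one_pow]
      have : ∀ x : ZMod 8, (2 * x + 1) * ((2 * x + 3) * (-1) + (2 * (x + 1) + 1 + (2 * x + 1))) = -(1 * (-1)) := by decide
      exact this _
    · rw [ho.neg_one_pow, pow_succ, ho.neg_one_pow]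
      have : ∀ x : ZMod 8, (2 * x + 1) * ((2 * x + 3) * (-(-1)) + (2 * (x + 1) + 1 + (2 * x + 1))) = -((-1) * (-1)) := by decide
      exact this _

lemma R_even (n : ℕ) (h : Even n) : ∃ r : ℤ, R n = -1 + 8 * r := by
  have := R_mod8 n
  rw [h.neg_one_pow] at this
  have h2 : ((R n : ℤ) : ZMod 8) = ((-1 : ℤ) : ZMod 8) := by rw [this]; push_cast; rfl
  rw [ZMod.intCast_eq_intCast_iff_dvd_sub] at h2
  obtain ⟨c, hc⟩ := h2
  exact ⟨-c, by push_cast at hc; linarith⟩

lemma R_odd (n : ℕ) (h : Odd n) : ∃ r : ℤ, R n = 1 + 8 * r := by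
  have := R_mod8 n
  rw [h.neg_one_pow] at this
  have h2 : ((R n : ℤ) : ZMod 8) = ((1 : ℤ) : ZMod 8) := by rw [this]; push_cast; ring
  rw [ZMod.intCast_eq_intCast_iff_dvd_sub] at h2
  obtain ⟨c, hc⟩ := h2
  exact ⟨-c, by push_cast at hc; linarith⟩

end Pool.Agent.Work.MP_c292ad_nt
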