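import Mathlib
import Pool.Agent.Work.MP_c292ad_nt.Core
import Pool.Agent.Work.MP_c292ad_nt.Mod8

set_option autoImplicit false

open Finset

namespace Pool.Agent.Work.MP_c292ad_nt

lemma Xi_succ (n : ℕ) : Xi (n + 1) = Xi n + R n := by simp [Xi, sum_range_succ]

lemma R_zero : R 0 = -1 := by simp [R]

lemma R_one : R 1 = 1 := by
  simp [R]

/-- The weighted sum of squares. -/
def S (n : ℕ) : ℤ := ∑ k ∈ range n, (2 * (k : ℤ) + 1) * (R k) ^ 2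

lemma S_succ (n : ℕ) : S (n + 1) = S n + (2 * (n : ℤ) + 1) * (R n) ^ 2 := by simp [S, sum_range_succ]

/-- Closed form of the weighted sum of squares of `R`. -/
lemma S_closed (n : ℕ) :
    8 * S (n + 1) = ((n : ℤ) + 1) * (((n : ℤ) + 1) * (R (n + 1) ^ 2 - 6 * R (n + 1) * R n + R n ^ 2)
      + 8 * Xi (n + 1) * (R (n + 1) + R n)) := by
  induction n with
  | zero => simp [S, Xi, R_zero, R_one]
  | succ n ih =>
    have h := R_rec n
    rw [S_succ (n + 1), Xi_succ (n + 1)]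
    push_cast
    rw [show n + 1 + 1 = n + 2 by ring]
    linear_combination ih - (((n : ℤ) + 2) * R (n + 2) + ((6 * n + 5) * R (n + 1) - (n + 1) * R n - 8 * Xi (n + 1))
      - 6 * ((n : ℤ) + 2) * R (n + 1) + 8 * (Xi (n + 1) + R (n + 1))) * h

lemma Xi_even (n : ℕ) (h : Even n) : ∃ x : ℤ, Xi n = 8 * x := by
  obtain ⟨m, rfl⟩ := h
  induction m with
  | zero => exact ⟨0, by simp [Xi]⟩
  | succ m ih =>
    obtain ⟨x, hx⟩ := ih
    rw [show m + 1 + (m + 1) = (m + m) + 1 + 1 by ring, Xi_succ, Xi_succ, hx]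
    obtain ⟨r, hr⟩ := R_even (m + m) ⟨m, rfl⟩
    obtain ⟨r', hr'⟩ := R_odd (m + m + 1) ⟨m, by ring⟩
    exact ⟨x + r + r', by rw [hr, hr']; ring⟩

lemma Xi_odd (n : ℕ) (h : Odd n) : ∃ x : ℤ, Xi n = -1 + 8 * x := by
  obtain ⟨m, rfl⟩ := h
  obtain ⟨x, hx⟩ := Xi_even (2 * m) ⟨m, by ring⟩
  obtain ⟨r, hr⟩ := R_even (2 * m) ⟨m, by ring⟩
  exact ⟨x + r, by rw [Xi_succ, hx, hr]; ring⟩

lemma S_mod16 (n : ℕ) : ∃ c : ℤ, S n = (n : ℤ) ^ 2 + 16 * c := by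
  induction n with
  | zero => exact ⟨0, by simp [S]⟩
  | succ n ih =>
    obtain ⟨c, hc⟩ := ih
    rw [S_succ, hc]
    have : ∃ d : ℤ, R n ^ 2 = 1 + 16 * d := by
      rcases Nat.even_or_odd n with he | ho
      · obtain ⟨r, hr⟩ := R_even n he
        exact ⟨-r + 4 * r ^ 2, by rw [hr]; ring⟩
      · obtain ⟨r, hr⟩ := R_odd n ho
        exact ⟨r + 4 * r ^ 2, by rw [hr]; ring⟩
    obtain ⟨d, hd⟩ := this
    exact ⟨c + (2 * n + 1) * d, by rw [hd]; push_cast; ring⟩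

theorem Q1_main (n : ℕ) (hn : 0 < n) : 16 * (n : ℤ) ∣ S n - (n : ℤ) ^ 2 := by
  obtain ⟨m, rfl⟩ : ∃ m, n = m + 1 := ⟨n - 1, by omega⟩
  have hcl := S_closed m
  rcases Nat.even_or_odd m with he | ho
  · -- `n = m + 1` is odd
    obtain ⟨c, hc⟩ := S_mod16 (m + 1)
    have ho' : Odd (m + 1) := he.add_one
    have hcop : IsCoprime (((m + 1 : ℕ) : ℤ)) (8 : ℤ) := by
      rw [show (8 : ℤ) = ((8 : ℕ) : ℤ) by rfl, Nat.isCoprime_iff_coprime]
      have : Nat.Coprime (m + 1) 2 := by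
        rw [Nat.coprime_two_right]; exact ho'
      exact Nat.Coprime.pow_right 3 this
    have hcop' : IsCoprime (16 : ℤ) (((m + 1 : ℕ) : ℤ)) := by
      rw [show (16 : ℤ) = ((16 : ℕ) : ℤ) by rfl, Nat.isCoprime_iff_coprime]
      have : Nat.Coprime 2 (m + 1) := by
        rw [Nat.coprime_two_left]; exact ho'
      exact Nat.Coprime.pow_left 4 this
    have h1 : (((m + 1 : ℕ) : ℤ)) ∣ 8 * S (m + 1) := by
      rw [hcl]; push_cast; exact Dvd.intro _ rfl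
    have h2 : (((m + 1 : ℕ) : ℤ)) ∣ S (m + 1) := hcop.dvd_of_dvd_mul_left h1
    apply hcop'.mul_dvd
    · exact ⟨c, by rw [hc]; ring⟩
    · exact dvd_sub h2 (dvd_pow_self _ (by norm_num))
  · -- `n = m + 1` is even
    have he' : Even (m + 1) := ho.add_one
    obtain ⟨r, hr⟩ := R_even (m + 1) he'
    obtain ⟨r', hr'⟩ := R_odd m ho
    obtain ⟨x, hx⟩ := Xi_even (m + 1) he'
    obtain ⟨u, hu⟩ : ∃ u : ℤ, r ^ 2 - r = 2 * u := by
      obtain ⟨u, hu⟩ := Int.even_mul_pred_self r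
      exact ⟨u, by linarith⟩
    obtain ⟨v, hv⟩ : ∃ v : ℤ, r' ^ 2 + r' = 2 * v := by
      obtain ⟨v, hv⟩ := Int.even_mul_succ_self r'
      exact ⟨v, by linarith⟩
    rw [hr, hr', hx] at hcl
    refine ⟨((m : ℤ) + 1) * (u + v - 3 * r * r') + 4 * x * (r + r'), ?_⟩
    have h8 : 8 * (S (m + 1) - (((m + 1 : ℕ) : ℤ)) ^ 2)
      = 8 * (16 * (((m + 1 : ℕ) : ℤ)) * (((m : ℤ) + 1) * (u + v - 3 * r * r') + 4 * x * (r + r'))) := by
      push_cast
      linear_combination hcl + 64 * ((m : ℤ) + 1) ^ 2 * (hu + hv)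
    linarith

/-- Twofold partial sums of `R`. -/
def X (n : ℕ) : ℤ := ∑ j ∈ range n, Xi (j + 1)

lemma X_succ (n : ℕ) : X (n + 1) = X n + Xi (n + 1) := by simp [X, sum_range_succ]

lemma X_rel (n : ℕ) :
    12 * X (n + 1) = 2 * (2 * (n : ℤ) + 5) * Xi (n + 1) - ((n : ℤ) + 1) * (R (n + 1) - R n) := by
  induction n with
  | zero => simp [X, Xi, R_zero, R_one]
  | succ n ih =>
    have h := R_rec n
    rw [X_succ (n + 1), Xi_succ (n + 1)]
    push_cast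
    rw [show n + 1 + 1 = n + 2 by ring]
    linear_combination ih + h

lemma R_rec2 (n : ℕ) :
    ((n : ℤ) + 1) * R (n + 1) = (5 * (n : ℤ) - 1) * R n + (4 * (n : ℤ) - 2) * Xi n - 12 * X n := by
  cases n with
  | zero => simp [X, Xi, R_zero, R_one]
  | succ n =>
    have h := R_rec n
    have h2 := X_rel n
    push_cast
    rw [show n + 1 + 1 = n + 2 by ring]
    linear_combination h + h2

/-- The second weighted sum. -/
def K (n : ℕ) : ℤ := ∑ k ∈ range n, (2 * (k : ℤ) + 1) * (2 * X k * (R k + 4 * X k))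

lemma K_succ (n : ℕ) : K (n + 1) = K n + (2 * (n : ℤ) + 1) * (2 * X n * (R n + 4 * X n)) := by
  simp [K, sum_range_succ]

lemma K_closed (n : ℕ) :
    8 * K n = (36 - 48 * (n : ℤ) + 16 * (n : ℤ) ^ 2) * X n ^ 2 - (12 + 24 * (n : ℤ)) * X n * Xi n
      - (36 * (n : ℤ) + 8 * (n : ℤ) ^ 2) * X n * R n
      + (-3 + 16 * (n : ℤ) + 16 * (n : ℤ) ^ 2) * Xi n ^ 2
      + (22 * (n : ℤ) + 16 * (n : ℤ) ^ 2) * Xi n * R n - 3 * (n : ℤ) ^ 2 * R n ^ 2 := by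
  induction n with
  | zero => simp [K, X, Xi]
  | succ n ih =>
    have h := R_rec2 n
    rw [K_succ, X_succ, Xi_succ]
    push_cast
    linear_combination ih - (-(36 + 8 * ((n : ℤ) + 1)) * (X n + (Xi n + R n))
      + (22 + 16 * ((n : ℤ) + 1)) * (Xi n + R n)
      - 3 * (((n : ℤ) + 1) * R (n + 1) + ((5 * (n : ℤ) - 1) * R n + (4 * (n : ℤ) - 2) * Xi n - 12 * X n))) * h

lemma X_mod (n : ℕ) : (∃ y : ℤ, X (2 * n) = -(n : ℤ) + 8 * y) ∧ (∃ y : ℤ, X (2 * n + 1) = -(n : ℤ) - 1 + 8 * y) := by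
  induction n with
  | zero => 
    constructor
    · exact ⟨0, by simp [X]⟩
    · exact ⟨0, by simp [X, Xi, R_zero]⟩
  | succ n ih =>
    obtain ⟨_, y, hy⟩ := ih
    obtain ⟨x, hx⟩ := Xi_even (2 * n + 1 + 1) ⟨n + 1, by ring⟩
    obtain ⟨x', hx'⟩ := Xi_odd (2 * n + 1 + 1 + 1) ⟨n + 1, by ring⟩
    have h1 : X (2 * (n + 1)) = -((n + 1 : ℕ) : ℤ) + 8 * (y + x) := by
      rw [show 2 * (n + 1) = 2 * n + 1 + 1 by ring, X_succ, hy, hx]; push_cast; ring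
    refine ⟨⟨y + x, h1⟩, ⟨y + x + x', ?_⟩⟩
    rw [X_succ, h1, show 2 * (n + 1) + 1 = 2 * n + 1 + 1 + 1 by ring, hx']
    ring

theorem K_dvd (n : ℕ) (hn : 0 < n) : (n : ℤ) ∣ K n := by
  obtain ⟨m, rfl⟩ : ∃ m, n = m + 1 := ⟨n - 1, by omega⟩
  have hcl := K_closed (m + 1)
  have hrel := X_rel m
  push_cast at hcl
  have key : ∃ E : ℤ, 16 * K (m + 1) = ((m : ℤ) + 1) * (16 * E) := by
    have hE : 16 * K (m + 1) = ((m : ℤ) + 1) * ((4 * Xi (m + 1) - (R (m + 1) - R m)) * (6 * X (m + 1) + Xi (m + 1))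
      - 96 * X (m + 1) ^ 2 + 32 * ((m : ℤ) + 1) * X (m + 1) ^ 2 - 48 * X (m + 1) * Xi (m + 1)
      - (72 + 16 * ((m : ℤ) + 1)) * X (m + 1) * R (m + 1)
      + (32 + 32 * ((m : ℤ) + 1)) * Xi (m + 1) ^ 2 + (44 + 32 * ((m : ℤ) + 1)) * Xi (m + 1) * R (m + 1)
      - 6 * ((m : ℤ) + 1) * R (m + 1) ^ 2) := by
      linear_combination 2 * hcl + (6 * X (m + 1) + Xi (m + 1)) * hrel
    rcases Nat.even_or_odd m with he | ho
    · -- `m + 1` odd
      obtain ⟨l, hl⟩ := he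
      obtain ⟨x, hx⟩ := Xi_odd (m + 1) (Even.add_one ⟨l, hl⟩)
      obtain ⟨r, hr⟩ := R_odd (m + 1) (Even.add_one ⟨l, hl⟩)
      obtain ⟨r', hr'⟩ := R_even m ⟨l, hl⟩
      obtain ⟨y, hy⟩ := (X_mod l).2
      have hm : m = 2 * l := by omega
      subst hm
      rw [hE]
      rw [hx, hr, hr', hy] at hrel ⊢
      push_cast at hrel ⊢
      obtain ⟨t, ht⟩ : ∃ t : ℤ, r' = r - 2 * t :=
        ⟨x * (4 * l + 5) - 6 * y - l * (r - r'), by linarith⟩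
      refine ⟨(4) * l ^ 3 + (16) * l ^ 2 * r + (-64) * l ^ 2 * y + (6) * l ^ 2 + (256) * l * x ^ 2 + (256) * l * x * r + (-20) * l * x + (-48) * l * r ^ 2 + (-128) * l * r * y + (16) * l * r + (6) * l * t + (256) * l * y ^ 2 + (-16) * l * y + (2) * l + (272) * x ^ 2 + (304) * x * r + (-8) * x * t + (-96) * x * y + (-19) * x + (-24) * r ^ 2 + (-352) * r * y + (-48) * t * y + (7) * t + (-256) * y ^ 2 + (26) * y, ?_⟩
      rw [ht]
      ring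
    · -- `m + 1` even
      obtain ⟨l, hl⟩ := ho
      obtain ⟨x, hx⟩ := Xi_even (m + 1) (Odd.add_one ⟨l, hl⟩)
      obtain ⟨r, hr⟩ := R_even (m + 1) (Odd.add_one ⟨l, hl⟩)
      obtain ⟨u, hu⟩ := R_odd m ⟨l, hl⟩
      obtain ⟨y, hy⟩ := (X_mod (l + 1)).1
      subst hl
      rw [show 2 * (l + 1) = 2 * l + 1 + 1 by ring] at hy
      rw [hE]
      rw [hx, hr, hu, hy]
      push_cast
      refine ⟨(4) * l ^ 3 + (16) * l ^ 2 * r + (-64) * l ^ 2 * y + (4) * l ^ 2 + (256) * l * x ^ 2 + (256) * l * x * r + (-20) * l * x + (-48) * l * r ^ 2 + (-128) * l * r * y + (83) * l * r + (256) * l * y ^ 2 + (-16) * l * y + (-3) * l * u + (-10) * l + (400) * x ^ 2 + (428) * x * r + (-96) * x * y + (4) * x * u + (-41) * x + (-48) * r ^ 2 + (-440) * r * y + (67) * r + (-128) * y ^ 2 + (24) * y * u + (90) * y + (-3) * u + (-10), ?_⟩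
      ring
  obtain ⟨E, hE⟩ := key
  refine ⟨E, ?_⟩
  push_cast
  linarith

/-- The weighted sum of squares of `W = R + 8 X`. -/
lemma SW_eq (n : ℕ) : ∑ k ∈ range n, (2 * (k : ℤ) + 1) * (R k + 8 * X k) ^ 2 = S n + 8 * K n := by
  unfold S K
  rw [mul_sum, ← sum_add_distrib]
  apply sum_congr rfl
  intro k _
  ring

theorem Q2_main (n : ℕ) (hn : 0 < n) :
    8 * (n : ℤ) ∣ (∑ k ∈ range n, (2 * (k : ℤ) + 1) * (R k + 8 * X k) ^ 2) - (n : ℤ) ^ 2 := by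
  rw [SW_eq]
  obtain ⟨c, hc⟩ := Q1_main n hn
  obtain ⟨d, hd⟩ := K_dvd n hn
  exact ⟨2 * c + d, by rw [hd]; linarith⟩

end Pool.Agent.Work.MP_c292ad_nt
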