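import Mathlib
import Pool.Agent.Work.MP_c292ad_nt.Sums

set_option autoImplicit false

open Finset

namespace Pool.Agent.Work.MP_c292ad_nt

lemma R_formula (n : ℕ) :
    (R n : ℚ) = ∑ k ∈ range (n + 1), (Nat.choose (n + k) (2 * k) : ℚ) * (Nat.choose (2 * k) k : ℚ)
      * (1 / (2 * (k : ℚ) - 1)) := by
  rw [sum_range_succ']
  unfold R
  push_cast
  rw [mul_sum]
  have : ∀ k ∈ range n, 2 * ((catalan k : ℚ) * (Nat.choose (n + k + 1) (2 * k + 2) : ℚ))
      = (Nat.choose (n + (k + 1)) (2 * (k + 1)) : ℚ) * (Nat.choose (2 * (k + 1)) (k + 1) : ℚ)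
        * (1 / (2 * ((k : ℚ) + 1) - 1)) := by
    intro k _
    have h := cb_succ k
    rw [Nat.centralBinom_eq_two_mul_choose] at h
    rw [h, show n + (k + 1) = n + k + 1 by ring, show 2 * (k + 1) = 2 * k + 2 by ring]
    have p1 : (2 * ((k : ℚ) + 1) - 1) ≠ 0 := by
      have : (2 * ((k : ℚ) + 1) - 1) = 2 * k + 1 := by ring
      rw [this]; positivity
    field_simp
    ring
  rw [sum_congr rfl this]
  simp
  ring

lemma X_eq (n N : ℕ) (h : n ≤ N) :
    2 * X n = -((n : ℤ) * (n + 1)) + 4 * ∑ k ∈ range N, (catalan k : ℤ) * (Nat.choose (n + k + 2) (2 * k + 4) : ℤ) := by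
  induction n with
  | zero =>
    simp only [X, range_zero, sum_empty, Nat.cast_zero, zero_mul, neg_zero, zero_add, mul_zero]
    symm
    rw [mul_eq_zero]; right
    apply sum_eq_zero
    intro x _
    rw [Nat.choose_eq_zero_of_lt (by omega)]
    simp
  | succ n ih =>
    rw [X_succ, mul_add, ih (by omega), Xi_eq (n + 1) N (by omega)]
    have h2 : ∑ k ∈ range N, (catalan k : ℤ) * (Nat.choose (n + 1 + k + 2) (2 * k + 4) : ℤ)
        = ∑ k ∈ range N, (catalan k : ℤ) * (Nat.choose (n + 1 + k + 1) (2 * k + 3) : ℤ)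
        + ∑ k ∈ range N, (catalan k : ℤ) * (Nat.choose (n + k + 2) (2 * k + 4) : ℤ) := by
      rw [← sum_add_distrib]
      apply sum_congr rfl
      intro k _
      rw [show n + 1 + k + 2 = (n + k + 2) + 1 by ring, show 2 * k + 4 = (2 * k + 3) + 1 by ring,
        Nat.choose_succ_succ, show n + 1 + k + 1 = n + k + 2 by ring]
      push_cast
      ring
    rw [h2]
    push_cast
    ring

lemma W_formula (n : ℕ) :
    ((R n + 8 * X n : ℤ) : ℚ) = ∑ k ∈ range (n + 1), (Nat.choose (n + k) (2 * k) : ℚ) * (Nat.choose (2 * k) k : ℚ)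
      * (3 / (2 * (k : ℚ) - 3)) := by
  have hX : ((2 * X n : ℤ) : ℚ) = ((-((n : ℤ) * (n + 1)) + 4 * ∑ k ∈ range n, (catalan k : ℤ) * (Nat.choose (n + k + 2) (2 * k + 4) : ℤ) : ℤ) : ℚ) := by
    rw [X_eq n n le_rfl]
  have hR : (R n : ℚ) = ((-1 + 2 * ∑ k ∈ range (n + 1), (catalan k : ℤ) * (Nat.choose (n + k + 1) (2 * k + 2) : ℤ) : ℤ) : ℚ) := by
    rw [R_eq n (n + 1) (by omega)]
  push_cast at hX hR ⊢
  rw [hR]
  have h8 : 8 * (X n : ℚ) = 4 * (2 * (X n : ℚ)) := by ring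
  rw [h8, hX]
  rw [show ∑ k ∈ range (n + 1), (Nat.choose (n + k) (2 * k) : ℚ) * (Nat.choose (2 * k) k : ℚ)
      * (3 / (2 * (k : ℚ) - 3)) = ∑ k ∈ range (n + 2), (Nat.choose (n + k) (2 * k) : ℚ) * (Nat.choose (2 * k) k : ℚ)
      * (3 / (2 * (k : ℚ) - 3)) by
        rw [sum_range_succ _ (n + 1), Nat.choose_eq_zero_of_lt (by omega : n + (n + 1) < 2 * (n + 1))]
        simp]
  rw [sum_range_succ' _ (n + 1), sum_range_succ' _ n, sum_range_succ' _ n]
  have : ∀ k ∈ range n, (Nat.choose (n + (k + 1 + 1)) (2 * (k + 1 + 1)) : ℚ) * (Nat.choose (2 * (k + 1 + 1)) (k + 1 + 1) : ℚ)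
        * (3 / (2 * (((k + 1 + 1 : ℕ) : ℚ)) - 3))
      = 2 * ((catalan (k + 1) : ℚ) * (Nat.choose (n + (k + 1) + 1) (2 * (k + 1) + 2) : ℚ))
      + 16 * ((catalan k : ℚ) * (Nat.choose (n + k + 2) (2 * k + 4) : ℚ)) := by
    intro k _
    have h := cb_succ (k + 1)
    rw [Nat.centralBinom_eq_two_mul_choose] at h
    have h2 := cb_cat (k + 1)
    have h3 := cb_succ k
    have h4 : (catalan (k + 1) : ℚ) = 2 * (2 * k + 1) * (catalan k : ℚ) / (k + 2) := by
      have : ((k : ℚ) + 2) ≠ 0 := by positivity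
      rw [eq_div_iff this, ← h3, ← h2]
      push_cast
      ring
    rw [show k + 1 + 1 = (k + 1) + 1 by ring, h, h4, show n + (k + 1 + 1) = n + k + 2 by ring,
      show 2 * (k + 1 + 1) = 2 * k + 4 by ring, show n + (k + 1) + 1 = n + k + 2 by ring,
      show 2 * (k + 1) + 2 = 2 * k + 4 by ring]
    push_cast
    have p0 : ((k : ℚ) + 2) ≠ 0 := by positivity
    have p1 : (2 * ((k : ℚ) + 1 + 1) - 3) ≠ 0 := by
      have : (2 * ((k : ℚ) + 1 + 1) - 3) = 2 * k + 1 := by ring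
      rw [this]; positivity
    field_simp
    ring
  rw [sum_congr rfl this, sum_add_distrib, ← mul_sum, ← mul_sum]
  have hc2 : (Nat.choose (n + 1) 2 : ℚ) * 2 = (n : ℚ) * (n + 1) := by
    have h := choose_step (n + 1) 1
    simp only [Nat.choose_one_right] at h
    push_cast at h
    linarith
  simp only [zero_add, mul_one, add_zero, mul_zero, Nat.choose_zero_right, catalan_zero, Nat.cast_one, one_mul,
    Nat.cast_zero]
  rw [show Nat.choose 2 1 = 2 by rfl]
  push_cast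
  norm_num
  linarith

end Pool.Agent.Work.MP_c292ad_nt
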